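import Mathlib

set_option autoImplicit false

/-!
Project OS (MP_ffd2c1_ag): the even Clifford algebra of a ternary quadratic form, in coordinates.
For a symmetric matrix `M` of size three with adjugate `A` the pair `(s, a)` stands for
`s + gamma(a)`, with `gamma(a) gamma(b) = - a^T A b - gamma(M (a x b))`.
-/

namespace Pool.Agent.Helper72.OS

open Matrix

variable {R : Type*} [CommRing R]

theorem cross0 (a b : Fin 3 → R) : (crossProduct a b) 0 = a 1 * b 2 - a 2 * b 1 := by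
  simp [crossProduct]
theorem cross1 (a b : Fin 3 → R) : (crossProduct a b) 1 = a 2 * b 0 - a 0 * b 2 := by
  simp [crossProduct]
theorem cross2 (a b : Fin 3 → R) : (crossProduct a b) 2 = a 0 * b 1 - a 1 * b 0 := by
  simp [crossProduct]

theorem mulVec3 (M : Matrix (Fin 3) (Fin 3) R) (v : Fin 3 → R) (i : Fin 3) :
    M.mulVec v i = M i 0 * v 0 + M i 1 * v 1 + M i 2 * v 2 := by
  simp [Matrix.mulVec, dotProduct, Fin.sum_univ_three]

theorem dot3 (v w : Fin 3 → R) : v ⬝ᵥ w = v 0 * w 0 + v 1 * w 1 + v 2 * w 2 := by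
  simp [dotProduct, Fin.sum_univ_three]

theorem adj00 (M : Matrix (Fin 3) (Fin 3) R) : M.adjugate 0 0 = M 1 1 * M 2 2 - M 1 2 * M 2 1 := by
  rw [Matrix.adjugate_fin_three]; simp
theorem adj01 (M : Matrix (Fin 3) (Fin 3) R) : M.adjugate 0 1 = M 0 2 * M 2 1 - M 0 1 * M 2 2 := by
  rw [Matrix.adjugate_fin_three]; simp; ring
theorem adj02 (M : Matrix (Fin 3) (Fin 3) R) : M.adjugate 0 2 = M 0 1 * M 1 2 - M 0 2 * M 1 1 := by
  rw [Matrix.adjugate_fin_three]; simp
theorem adj10 (M : Matrix (Fin 3) (Fin 3) R) : M.adjugate 1 0 = M 1 2 * M 2 0 - M 1 0 * M 2 2 := by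
  rw [Matrix.adjugate_fin_three]; simp; ring
theorem adj11 (M : Matrix (Fin 3) (Fin 3) R) : M.adjugate 1 1 = M 0 0 * M 2 2 - M 0 2 * M 2 0 := by
  rw [Matrix.adjugate_fin_three]; simp
theorem adj12 (M : Matrix (Fin 3) (Fin 3) R) : M.adjugate 1 2 = M 0 2 * M 1 0 - M 0 0 * M 1 2 := by
  rw [Matrix.adjugate_fin_three]; simp; ring
theorem adj20 (M : Matrix (Fin 3) (Fin 3) R) : M.adjugate 2 0 = M 1 0 * M 2 1 - M 1 1 * M 2 0 := by
  rw [Matrix.adjugate_fin_three]; simp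
theorem adj21 (M : Matrix (Fin 3) (Fin 3) R) : M.adjugate 2 1 = M 0 1 * M 2 0 - M 0 0 * M 2 1 := by
  rw [Matrix.adjugate_fin_three]; simp; ring
theorem adj22 (M : Matrix (Fin 3) (Fin 3) R) : M.adjugate 2 2 = M 0 0 * M 1 1 - M 0 1 * M 1 0 := by
  rw [Matrix.adjugate_fin_three]; simp

/-- multiplication -/
def qmul (M : Matrix (Fin 3) (Fin 3) R) (p q : R × (Fin 3 → R)) : R × (Fin 3 → R) :=
  (p.1 * q.1 - p.2 ⬝ᵥ M.adjugate.mulVec q.2, p.1 • q.2 + q.1 • p.2 - M.mulVec (crossProduct p.2 q.2))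

/-- norm form -/
def qn (M : Matrix (Fin 3) (Fin 3) R) (p : R × (Fin 3 → R)) : R :=
  p.1 ^ 2 + p.2 ⬝ᵥ M.adjugate.mulVec p.2

/-- conjugation -/
def qbar (p : R × (Fin 3 → R)) : R × (Fin 3 → R) := (p.1, -p.2)

theorem qmul_fst (M : Matrix (Fin 3) (Fin 3) R) (p q : R × (Fin 3 → R)) :
    (qmul M p q).1 = p.1 * q.1 - p.2 ⬝ᵥ M.adjugate.mulVec q.2 := rfl
theorem qmul_snd (M : Matrix (Fin 3) (Fin 3) R) (p q : R × (Fin 3 → R)) (i : Fin 3) :
    (qmul M p q).2 i = p.1 * q.2 i + q.1 * p.2 i - M.mulVec (crossProduct p.2 q.2) i := rfl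

theorem qmul_assoc (M : Matrix (Fin 3) (Fin 3) R) (hM : M.IsSymm) (p q r : R × (Fin 3 → R)) :
    qmul M (qmul M p q) r = qmul M p (qmul M q r) := by
  have h10 := hM.apply 0 1
  have h20 := hM.apply 0 2
  have h21 := hM.apply 1 2
  ext i
  · simp only [qmul_fst, qmul_snd, dot3, mulVec3, cross0, cross1, cross2, adj00, adj01, adj02,
      adj10, adj11, adj12, adj20, adj21, adj22, h10, h20, h21]
    ring
  · fin_cases i
    all_goals
      simp only [Fin.zero_eta, Fin.mk_one, Fin.reduceFinMk, qmul_fst, qmul_snd, dot3, mulVec3,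
        cross0, cross1, cross2, adj00, adj01, adj02,
        adj10, adj11, adj12, adj20, adj21, adj22, h10, h20, h21]
      ring

theorem qn_mul (M : Matrix (Fin 3) (Fin 3) R) (hM : M.IsSymm) (p q : R × (Fin 3 → R)) :
    qn M (qmul M p q) = qn M p * qn M q := by
  have h10 := hM.apply 0 1
  have h20 := hM.apply 0 2
  have h21 := hM.apply 1 2
  simp only [qn, qmul_fst, qmul_snd, dot3, mulVec3, cross0, cross1, cross2, adj00, adj01, adj02,
      adj10, adj11, adj12, adj20, adj21, adj22, h10, h20, h21]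
  ring

end Pool.Agent.Helper72.OS
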