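import Mathlib

set_option autoImplicit false

/-!
Project OS (MP_ffd2c1_ag): a finite dimensional complex vector space with an action of the even
Clifford algebra of a ternary quadratic form whose determinant acts injectively has even dimension.
-/

namespace Pool.Agent.Helper72.OS

open Matrix

/-- two anticommuting invertible operators force even dimension -/
theorem even_of_anticomm {V : Type*} [AddCommGroup V] [Module ℂ V] [FiniteDimensional ℂ V]
    (i j : V →ₗ[ℂ] V) (hi : Function.Injective i) (hj : Function.Injective j)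
    (h : i * j = -(j * i)) : Even (Module.finrank ℂ V) := by
  have hi' : LinearMap.det i ≠ 0 := by
    have := (LinearMap.isUnit_iff_ker_eq_bot i).2 (LinearMap.ker_eq_bot.2 hi)
    exact (this.map LinearMap.det).ne_zero
  have hj' : LinearMap.det j ≠ 0 := by
    have := (LinearMap.isUnit_iff_ker_eq_bot j).2 (LinearMap.ker_eq_bot.2 hj)
    exact (this.map LinearMap.det).ne_zero
  have h1 := congrArg LinearMap.det h
  have h2 : -(j * i) = (-1 : ℂ) • (j * i) := by simp
  rw [h2, LinearMap.det_smul, map_mul, map_mul] at h1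
  have h3 : (1 : ℂ) * (LinearMap.det i * LinearMap.det j) =
      (-1) ^ (Module.finrank ℂ V) * (LinearMap.det i * LinearMap.det j) := by
    rw [one_mul]
    calc _ = _ := h1
      _ = _ := by ring
  have h4 := mul_right_cancel₀ (mul_ne_zero hi' hj') h3
  by_contra hodd
  rw [Nat.not_even_iff_odd] at hodd
  rw [hodd.neg_one_pow] at h4
  norm_num at h4

theorem form_expand {R : Type*} [CommRing R] (A : Matrix (Fin 3) (Fin 3) R) (u v : Fin 3 → R) :
    u ⬝ᵥ A.mulVec v = u 0 * (A 0 0 * v 0 + A 0 1 * v 1 + A 0 2 * v 2) +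
      u 1 * (A 1 0 * v 0 + A 1 1 * v 1 + A 1 2 * v 2) +
      u 2 * (A 2 0 * v 0 + A 2 1 * v 1 + A 2 2 * v 2) := by
  simp [Matrix.mulVec, dotProduct, Fin.sum_univ_three]

/-- a symmetric matrix whose quadratic form vanishes is zero -/
theorem sym_zero (B : Matrix (Fin 3) (Fin 3) ℂ) (hB : B.IsSymm)
    (h : ∀ u : Fin 3 → ℂ, u ⬝ᵥ B.mulVec u = 0) : B = 0 := by
  have h10 := hB.apply 0 1
  have h20 := hB.apply 0 2
  have h21 := hB.apply 1 2
  have e0 := h ![1, 0, 0]
  have e1 := h ![0, 1, 0]
  have e2 := h ![0, 0, 1]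
  have e01 := h ![1, 1, 0]
  have e02 := h ![1, 0, 1]
  have e12 := h ![0, 1, 1]
  rw [form_expand] at e0 e1 e2 e01 e02 e12
  simp only [Matrix.cons_val_zero, Matrix.cons_val_one, Matrix.cons_val_two, Matrix.head_cons,
    Matrix.tail_cons] at e0 e1 e2 e01 e02 e12
  have a00 : B 0 0 = 0 := by linear_combination e0
  have a11 : B 1 1 = 0 := by linear_combination e1
  have a22 : B 2 2 = 0 := by linear_combination e2
  have a01 : B 0 1 = 0 := by linear_combination (e01 - e0 - e1 - h10) / 2
  have a02 : B 0 2 = 0 := by linear_combination (e02 - e0 - e2 - h20) / 2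
  have a12 : B 1 2 = 0 := by linear_combination (e12 - e1 - e2 - h21) / 2
  have a10 : B 1 0 = 0 := by rw [h10, a01]
  have a20 : B 2 0 = 0 := by rw [h20, a02]
  have a21 : B 2 1 = 0 := by rw [h21, a12]
  ext i j
  fin_cases i <;> fin_cases j <;> simp [a00, a01, a02, a10, a11, a12, a20, a21, a22]

/-- a nondegenerate symmetric complex matrix of size three has two orthogonal anisotropic
vectors -/
theorem exists_orth (A : Matrix (Fin 3) (Fin 3) ℂ) (hA : A.IsSymm) (hd : A.det ≠ 0) :
    ∃ u v : Fin 3 → ℂ, u ⬝ᵥ A.mulVec v = 0 ∧ u ⬝ᵥ A.mulVec u ≠ 0 ∧ v ⬝ᵥ A.mulVec v ≠ 0 := by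
  have h10 := hA.apply 0 1
  have h20 := hA.apply 0 2
  have h21 := hA.apply 1 2
  obtain ⟨u, hu⟩ : ∃ u : Fin 3 → ℂ, u ⬝ᵥ A.mulVec u ≠ 0 := by
    by_contra hne
    push Not at hne
    exact hd (by rw [sym_zero A hA hne]; simp)
  by_contra hno
  push Not at hno
  set c := u ⬝ᵥ A.mulVec u with hc
  set w := A.mulVec u with hw
  have key : ∀ v : Fin 3 → ℂ, v ⬝ᵥ (c • A - Matrix.vecMulVec w w).mulVec v = 0 := by
    intro v
    have h1 := hno u (c • v - (u ⬝ᵥ A.mulVec v) • u) (by
      rw [hc]
      rw [form_expand, form_expand, form_expand]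
      simp only [Pi.sub_apply, Pi.smul_apply, smul_eq_mul]
      ring) hu
    have h2 : (c • v - (u ⬝ᵥ A.mulVec v) • u) ⬝ᵥ A.mulVec (c • v - (u ⬝ᵥ A.mulVec v) • u)
        = c * (v ⬝ᵥ (c • A - Matrix.vecMulVec w w).mulVec v) := by
      rw [hc, hw]
      simp only [Pi.sub_apply, Pi.smul_apply, smul_eq_mul, Matrix.sub_apply,
        Matrix.smul_apply, Matrix.vecMulVec_apply, Matrix.mulVec, dotProduct, Fin.sum_univ_three]
      rw [h10, h20, h21]
      ring
    rw [h2] at h1
    exact (mul_eq_zero.1 h1).resolve_left hu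
  have h3 := sym_zero _ (by
    apply Matrix.IsSymm.ext
    intro i j
    simp only [Matrix.sub_apply, Matrix.smul_apply, Matrix.vecMulVec_apply, hA.apply i j]
    ring) key
  have h4 : c • A = Matrix.vecMulVec w w := sub_eq_zero.1 h3
  have h5 : (c • A).det = 0 := by
    rw [h4, Matrix.det_fin_three]
    simp only [Matrix.vecMulVec_apply]
    ring
  rw [Matrix.det_smul] at h5
  rcases mul_eq_zero.1 h5 with h6 | h6
  · exact hu (by simpa using h6)
  · exact hd h6

/-- constant vectors -/
noncomputable def cst {R : Type*} [CommRing R] [Algebra ℂ R] (u : Fin 3 → ℂ) : Fin 3 → R :=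
  fun i => algebraMap ℂ R (u i)

/-- a nonzero finite dimensional module over a commutative complex algebra contains a common
eigenvector -/
theorem exists_char {R : Type*} [CommRing R] [Algebra ℂ R] {V : Type*} [AddCommGroup V]
    [Module ℂ V] [Module R V] [IsScalarTower ℂ R V] [FiniteDimensional ℂ V] [Nontrivial V] :
    ∃ (χ : R →+* ℂ) (w : V), w ≠ 0 ∧ ∀ r : R, r • w = χ r • w := by
  classical
  -- a nonzero submodule of smallest dimension
  have hex : ∃ n, ∃ W : Submodule R V, W ≠ ⊥ ∧ Module.finrank ℂ (W.restrictScalars ℂ) = n :=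
    ⟨_, ⊤, (bot_ne_top (α := Submodule R V)).symm, rfl⟩
  obtain ⟨W, hW, hn⟩ := Nat.find_spec hex
  have hmin : ∀ W' : Submodule R V, W' ≠ ⊥ → W' ≤ W → W' = W := by
    intro W' h0 hle
    have h1 : Nat.find hex ≤ Module.finrank ℂ (W'.restrictScalars ℂ) :=
      Nat.find_min' hex ⟨W', h0, rfl⟩
    have h2 : W'.restrictScalars ℂ = W.restrictScalars ℂ :=
      Submodule.eq_of_le_of_finrank_le hle (by omega)
    exact (Submodule.restrictScalars_injective ℂ R V) h2
  have hsc : ∀ r : R, ∃ c : ℂ, ∀ x ∈ W, r • x = c • x := by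
    intro r
    have hnt : Nontrivial (W.restrictScalars ℂ) := by
      rw [Submodule.nontrivial_iff_ne_bot]
      intro h
      apply hW
      exact (Submodule.restrictScalars_eq_bot_iff ℂ R V).1 h
    let f : (W.restrictScalars ℂ) →ₗ[ℂ] (W.restrictScalars ℂ) :=
      { toFun := fun x => ⟨r • x.1, W.smul_mem r x.2⟩
        map_add' := fun x y => by ext; simp
        map_smul' := fun c x => by
          ext
          simp only [Submodule.coe_smul, RingHom.id_apply]
          rw [← algebraMap_smul R c (x : V), ← algebraMap_smul R c (r • (x : V)), smul_comm] }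
    obtain ⟨c, hc⟩ := Module.End.exists_eigenvalue f
    obtain ⟨x, hx⟩ := hc.exists_hasEigenvector
    let W' : Submodule R V :=
      { carrier := {y | y ∈ W ∧ r • y = c • y}
        add_mem' := fun {a b} ha hb => ⟨W.add_mem ha.1 hb.1, by rw [smul_add, smul_add, ha.2, hb.2]⟩
        zero_mem' := ⟨W.zero_mem, by simp⟩
        smul_mem' := fun s y hy => ⟨W.smul_mem s hy.1, by
          rw [smul_comm, hy.2, ← algebraMap_smul R c (s • y), ← algebraMap_smul R c y,
            smul_comm]⟩ }
    have hx0 : (x : V) ≠ 0 := fun h => hx.2 (by ext; exact h)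
    have hxe : r • (x : V) = c • (x : V) := by
      have := congrArg Subtype.val hx.apply_eq_smul
      exact this
    have hW' : W' = W := hmin W' (by
      intro h
      have : (x : V) ∈ W' := ⟨x.2, hxe⟩
      rw [h] at this
      exact hx0 ((Submodule.mem_bot R).1 this)) (fun y hy => hy.1)
    refine ⟨c, fun y hy => ?_⟩
    rw [← hW'] at hy
    exact hy.2
  choose χ hχ using hsc
  obtain ⟨w, hw, hw0⟩ := (Submodule.ne_bot_iff W).1 hW
  have huniq : ∀ c d : ℂ, c • w = d • w → c = d := fun c d h => smul_left_injective ℂ hw0 h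
  refine ⟨{ toFun := χ, map_one' := ?_, map_mul' := ?_, map_zero' := ?_, map_add' := ?_ }, w, hw0,
    fun r => hχ r w hw⟩
  · apply huniq
    rw [← hχ 1 w hw, one_smul, one_smul]
  · intro r s
    apply huniq
    rw [← hχ (r * s) w hw, mul_smul, hχ s w hw, ← algebraMap_smul R (χ s) w, smul_comm,
      hχ r w hw, algebraMap_smul, smul_smul, mul_comm]
  · apply huniq
    rw [← hχ 0 w hw, zero_smul, zero_smul]
  · intro r s
    apply huniq
    rw [← hχ (r + s) w hw, add_smul, hχ r w hw, hχ s w hw, add_smul]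

/-- the evenness lemma: constant vectors act by anticommuting operators -/
theorem even_finrank {R : Type*} [CommRing R] [Algebra ℂ R] (A : Matrix (Fin 3) (Fin 3) R)
    (hA : A.IsSymm) : ∀ (n : ℕ) {V : Type*} [AddCommGroup V] [Module ℂ V] [Module R V]
    [IsScalarTower ℂ R V] [FiniteDimensional ℂ V] (γ : (Fin 3 → ℂ) → (V →ₗ[R] V))
    (_ : ∀ u v x, γ u (γ v x) + γ v (γ u x) =
      -((2 * (cst (R := R) u ⬝ᵥ A.mulVec (cst v))) • x))
    (_ : ∀ x : V, A.det • x = 0 → x = 0), Module.finrank ℂ V = n → Even n := by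
  intro n
  induction n using Nat.strong_induction_on with
  | _ n ih =>
  intro V _ _ _ _ _ γ hγ hdet hn
  rcases subsingleton_or_nontrivial V with hV | hV
  · have h0 : Module.finrank ℂ V = 0 := Module.finrank_zero_of_subsingleton
    rw [← hn, h0]
    exact Even.zero
  obtain ⟨χ, w, hw0, hw⟩ := exists_char (R := R) (V := V)
  have huniq : ∀ c d : ℂ, c • w = d • w → c = d := fun c d h => smul_left_injective ℂ hw0 h
  -- the specialised matrix
  set B : Matrix (Fin 3) (Fin 3) ℂ := A.map χ with hB
  have hBs : B.IsSymm := by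
    apply Matrix.IsSymm.ext
    intro i j
    simp only [hB, Matrix.map_apply, hA.apply i j]
  have hBd : B.det ≠ 0 := by
    intro h
    have h1 : χ A.det = 0 := by
      rw [RingHom.map_det]
      exact h
    apply hw0
    apply hdet
    rw [hw, h1, zero_smul]
  obtain ⟨u, v, huv, hu, hv⟩ := exists_orth B hBs hBd
  have hcst : ∀ a b : Fin 3 → ℂ, χ (cst (R := R) a ⬝ᵥ A.mulVec (cst b)) = a ⬝ᵥ B.mulVec b := by
    intro a b
    have hc : ∀ c : ℂ, χ (algebraMap ℂ R c) = c := by
      intro c
      apply huniq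
      rw [← hw, algebraMap_smul]
    rw [form_expand, form_expand]
    simp only [cst, map_add, map_mul, hc, hB, Matrix.map_apply]
  let W : Submodule R V :=
    { carrier := {y | ∀ r : R, r • y = χ r • y}
      add_mem' := fun {a b} ha hb r => by rw [smul_add, smul_add, ha, hb]
      zero_mem' := fun r => by simp
      smul_mem' := fun s y hy r => by
        rw [smul_comm, hy, ← algebraMap_smul R (χ r) y, ← algebraMap_smul R (χ r) (s • y),
          smul_comm] }
  have hWγ : ∀ (a : Fin 3 → ℂ) (x : V), x ∈ W → γ a x ∈ W := by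
    intro a x hx r
    rw [← (γ a).map_smul, hx r, ← algebraMap_smul R (χ r) x, (γ a).map_smul, algebraMap_smul]
  -- the part W
  let g : (Fin 3 → ℂ) → ((W.restrictScalars ℂ) →ₗ[ℂ] (W.restrictScalars ℂ)) := fun a =>
    { toFun := fun x => ⟨γ a x.1, hWγ a x.1 x.2⟩
      map_add' := fun x y => by ext; simp
      map_smul' := fun c x => by
        ext
        simp only [Submodule.coe_smul, RingHom.id_apply]
        rw [← algebraMap_smul R c (x : V), (γ a).map_smul, algebraMap_smul] }
  have hgg : ∀ (a b : Fin 3 → ℂ) (x : W.restrictScalars ℂ),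
      g a (g b x) + g b (g a x) = -((2 * (a ⬝ᵥ B.mulVec b)) • x) := by
    intro a b x
    ext
    have h1 := hγ a b x.1
    have h2 : (2 * (cst (R := R) a ⬝ᵥ A.mulVec (cst b))) • (x : V) =
        (2 * (a ⬝ᵥ B.mulVec b)) • (x : V) := by
      have h3 := x.2 (2 * (cst (R := R) a ⬝ᵥ A.mulVec (cst b)))
      rw [map_mul, hcst, map_ofNat] at h3
      exact h3
    rw [h2] at h1
    exact h1
  have hinj : ∀ a : Fin 3 → ℂ, a ⬝ᵥ B.mulVec a ≠ 0 → Function.Injective (g a) := by
    intro a ha
    rw [← LinearMap.ker_eq_bot, LinearMap.ker_eq_bot']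
    intro x hx
    have h1 := hgg a a x
    rw [hx, map_zero, add_zero] at h1
    have h2 : (2 * (a ⬝ᵥ B.mulVec a)) • x = 0 := by
      rw [← neg_eq_zero, ← h1]
    exact (smul_eq_zero.1 h2).resolve_left (mul_ne_zero two_ne_zero ha)
  have hWeven : Even (Module.finrank ℂ (W.restrictScalars ℂ)) := by
    apply even_of_anticomm (g u) (g v) (hinj u hu) (hinj v hv)
    apply LinearMap.ext
    intro x
    have h1 := hgg u v x
    rw [huv] at h1
    have h2 : g u (g v x) + g v (g u x) = 0 := by rw [h1]; simp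
    exact eq_neg_of_add_eq_zero_left h2
  -- the quotient
  let γ' : (Fin 3 → ℂ) → ((V ⧸ W) →ₗ[R] (V ⧸ W)) := fun a =>
    W.mapQ W (γ a) (fun x hx => hWγ a x hx)
  have hfin : FiniteDimensional ℂ (V ⧸ W) :=
    Module.Finite.equiv (Submodule.Quotient.restrictScalarsEquiv ℂ W)
  have hdetinj : ∀ x : V, x ∈ W ↔ A.det • x ∈ W := by
    intro x
    refine ⟨fun h => W.smul_mem _ h, fun h => ?_⟩
    -- det is bijective on W
    let f : (W.restrictScalars ℂ) →ₗ[ℂ] (W.restrictScalars ℂ) :=
      { toFun := fun x => ⟨A.det • x.1, W.smul_mem _ x.2⟩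
        map_add' := fun x y => by ext; simp
        map_smul' := fun c x => by
          ext
          simp only [Submodule.coe_smul, RingHom.id_apply]
          rw [← algebraMap_smul R c (x : V), ← algebraMap_smul R c (A.det • (x : V)), smul_comm] }
    have hf : Function.Injective f := by
      rw [← LinearMap.ker_eq_bot, LinearMap.ker_eq_bot']
      intro y hy
      have h1 : A.det • (y : V) = 0 := congrArg Subtype.val hy
      ext
      exact hdet _ h1
    obtain ⟨y, hy⟩ := (LinearMap.injective_iff_surjective.1 hf) ⟨A.det • x, h⟩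
    have h1 : A.det • (y : V) = A.det • x := congrArg Subtype.val hy
    have h2 : A.det • ((y : V) - x) = 0 := by rw [smul_sub, h1, sub_self]
    have h3 := sub_eq_zero.1 (hdet _ h2)
    rw [← h3]
    exact y.2
  have hq : Even (Module.finrank ℂ (V ⧸ W)) := by
    apply ih (Module.finrank ℂ (V ⧸ W)) ?_ γ' ?_ ?_ rfl
    · have h1 := Submodule.finrank_quotient_add_finrank (W.restrictScalars ℂ)
      have h2 : Module.finrank ℂ (V ⧸ W.restrictScalars ℂ) = Module.finrank ℂ (V ⧸ W) :=
        (Submodule.Quotient.restrictScalarsEquiv ℂ W).finrank_eq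
      have h3 : 0 < Module.finrank ℂ (W.restrictScalars ℂ) := by
        have hnt : Nontrivial (W.restrictScalars ℂ) :=
          ⟨⟨⟨w, hw⟩, 0, fun h => hw0 (congrArg Subtype.val h)⟩⟩
        exact Module.finrank_pos
      omega
    · intro a b x
      obtain ⟨y, rfl⟩ := Submodule.Quotient.mk_surjective W x
      have h1 := hγ a b y
      simp only [γ', Submodule.mapQ_apply]
      rw [← Submodule.Quotient.mk_add, h1, Submodule.Quotient.mk_neg, Submodule.Quotient.mk_smul]
    · intro x hx
      obtain ⟨y, rfl⟩ := Submodule.Quotient.mk_surjective W x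
      rw [← Submodule.Quotient.mk_smul, Submodule.Quotient.mk_eq_zero] at hx
      rw [Submodule.Quotient.mk_eq_zero]
      exact (hdetinj y).2 hx
  have h1 := Submodule.finrank_quotient_add_finrank (W.restrictScalars ℂ)
  have h2 : Module.finrank ℂ (V ⧸ W.restrictScalars ℂ) = Module.finrank ℂ (V ⧸ W) :=
    (Submodule.Quotient.restrictScalarsEquiv ℂ W).finrank_eq
  rw [← hn, ← h1, h2]
  exact hq.add hWeven

end Pool.Agent.Helper72.OS
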